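import Mathlib

/-!
# Every trade in a complex Hadamard matrix of order `n` has size at least `n`
-/

open Finset Matrix

namespace Pool.Agent.Results.MP_f34218_co.TradeSize

/-- A complex Hadamard matrix: all entries have modulus `1` and `H Hᴴ = n I`. -/
def IsComplexHadamard {n : ℕ} (H : Matrix (Fin n) (Fin n) ℂ) : Prop :=
  (∀ i j, ‖H i j‖ = 1) ∧ H * Hᴴ = (n : ℂ) • (1 : Matrix (Fin n) (Fin n) ℂ)

/-- The set `T` of positions is a trade of `H`: some complex Hadamard matrix `H' ≠ H` differs from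
`H` exactly at the positions of `T`. -/
def IsTrade {n : ℕ} (H : Matrix (Fin n) (Fin n) ℂ) (T : Finset (Fin n × Fin n)) : Prop :=
  ∃ H' : Matrix (Fin n) (Fin n) ℂ, IsComplexHadamard H' ∧ H' ≠ H ∧
    ∀ i j, (i, j) ∈ T ↔ H' i j ≠ H i j

/-- Every trade in a complex Hadamard matrix of order `n` has size at least `n`. -/
theorem result (n : ℕ) (H : Matrix (Fin n) (Fin n) ℂ) (hH : IsComplexHadamard H)
    (T : Finset (Fin n × Fin n)) (hT : IsTrade H T) : n ≤ T.card := by
  classical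
  obtain ⟨H', hH', hne, hTH⟩ := hT
  rcases Nat.eq_zero_or_pos n with hn | hn
  · omega
  have hnC : (n : ℂ) ≠ 0 := by exact_mod_cast hn.ne'
  have hnR : (0 : ℝ) < n := by exact_mod_cast hn
  obtain ⟨D, hD⟩ : ∃ D, D = H' - H := ⟨_, rfl⟩
  obtain ⟨A, hA⟩ : ∃ A, A = ((n : ℂ)⁻¹) • (D * Hᴴ) := ⟨_, rfl⟩
  -- `Hᴴ H = n I`
  have hHH : Hᴴ * H = (n : ℂ) • (1 : Matrix (Fin n) (Fin n) ℂ) := by
    have h1 : (((n : ℂ)⁻¹) • H) * Hᴴ = 1 := by
      rw [smul_mul_assoc, hH.2, smul_smul, inv_mul_cancel₀ hnC, one_smul]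
    have h2 := mul_eq_one_comm.1 h1
    rw [mul_smul_comm] at h2
    calc Hᴴ * H = (n : ℂ) • ((n : ℂ)⁻¹ • (Hᴴ * H)) := by
          rw [smul_smul, mul_inv_cancel₀ hnC, one_smul]
      _ = (n : ℂ) • 1 := by rw [h2]
  have hDA : D = A * H := by
    rw [hA, smul_mul_assoc, Matrix.mul_assoc, hHH, mul_smul_comm, Matrix.mul_one, smul_smul,
      inv_mul_cancel₀ hnC, one_smul]
  -- the rows that are changed
  let R : Finset (Fin n) := univ.filter (fun i => ∃ j, H' i j ≠ H i j)
  have hR : ∀ j, j ∉ R → ∀ k, H' j k = H j k := by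
    intro j hj k
    by_contra hcon
    exact hj (by simp only [R, mem_filter, mem_univ, true_and]; exact ⟨k, hcon⟩)
  have hA0 : ∀ i j, j ∉ R → A i j = 0 := by
    intro i j hj
    have h1 : (H' * Hᴴ) i j = (H' * H'ᴴ) i j := by
      rw [Matrix.mul_apply, Matrix.mul_apply]
      apply sum_congr rfl
      intro k _
      rw [conjTranspose_apply, conjTranspose_apply, hR j hj k]
    rw [hA, hD, Matrix.sub_mul, Matrix.smul_apply, Matrix.sub_apply, h1, hH'.2, hH.2, sub_self,
      smul_zero]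
  -- the norm of a row of `D`
  have hnorm : ∀ i, ∑ k, ‖D i k‖ ^ 2 = n * ∑ j, ‖A i j‖ ^ 2 := by
    intro i
    have h1 : D * Dᴴ = (n : ℂ) • (A * Aᴴ) := by
      conv_lhs => rw [hDA]
      rw [conjTranspose_mul, Matrix.mul_assoc, ← Matrix.mul_assoc H, hH.2, smul_mul_assoc,
        Matrix.one_mul, mul_smul_comm]
    have h2 : ∀ (M : Matrix (Fin n) (Fin n) ℂ), (M * Mᴴ) i i = ((∑ k, ‖M i k‖ ^ 2 : ℝ) : ℂ) := by
      intro M
      rw [Matrix.mul_apply]
      push_cast
      apply sum_congr rfl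
      intro k _
      rw [conjTranspose_apply]
      exact Complex.mul_conj' (M i k)
    have h3 : (D * Dᴴ) i i = ((n : ℂ) • (A * Aᴴ)) i i := by rw [h1]
    rw [Matrix.smul_apply, h2, h2, smul_eq_mul] at h3
    exact_mod_cast h3
  -- an entry of `D`
  have hentry : ∀ i k, ‖D i k‖ ^ 2 ≤ R.card * ∑ j, ‖A i j‖ ^ 2 := by
    intro i k
    have h1 : D i k = ∑ j ∈ R, A i j * H j k := by
      conv_lhs => rw [hDA]
      rw [Matrix.mul_apply]
      symm
      apply sum_subset (subset_univ _)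
      intro j _ hj
      rw [hA0 i j hj, zero_mul]
    have h2 : ‖D i k‖ ≤ ∑ j ∈ R, ‖A i j‖ := by
      rw [h1]
      refine (norm_sum_le _ _).trans (le_of_eq (sum_congr rfl fun j _ => ?_))
      rw [norm_mul, hH.1, mul_one]
    calc ‖D i k‖ ^ 2 ≤ (∑ j ∈ R, ‖A i j‖) ^ 2 := pow_le_pow_left₀ (norm_nonneg _) h2 2
      _ ≤ R.card * ∑ j ∈ R, ‖A i j‖ ^ 2 := sq_sum_le_card_mul_sum_sq
      _ ≤ R.card * ∑ j, ‖A i j‖ ^ 2 := by
          apply mul_le_mul_of_nonneg_left _ (Nat.cast_nonneg _)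
          apply sum_le_sum_of_subset_of_nonneg (subset_univ _)
          intro j _ _; positivity
  -- the number of changed entries in a row
  let t : Fin n → ℕ := fun i => (univ.filter (fun k => H' i k ≠ H i k)).card
  have hrow : ∀ i ∈ R, n ≤ R.card * t i := by
    intro i hi
    simp only [R, mem_filter, mem_univ, true_and] at hi
    obtain ⟨k0, hk0⟩ := hi
    have hpos : 0 < ∑ j, ‖A i j‖ ^ 2 := by
      by_contra hcon
      push Not at hcon
      have h1 := hnorm i
      have h2 : ∑ k, ‖D i k‖ ^ 2 ≤ 0 := by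
        rw [h1]; exact mul_nonpos_of_nonneg_of_nonpos hnR.le hcon
      have h3 : ‖D i k0‖ ^ 2 ≤ ∑ k, ‖D i k‖ ^ 2 :=
        single_le_sum (f := fun k => ‖D i k‖ ^ 2) (fun k _ => by positivity) (mem_univ k0)
      have h4 : ‖D i k0‖ ^ 2 ≤ 0 := h3.trans h2
      have h5 : D i k0 ≠ 0 := by
        rw [hD, Matrix.sub_apply]; exact sub_ne_zero.2 hk0
      have h6 : 0 < ‖D i k0‖ ^ 2 := by positivity
      linarith
    have h7 : ∑ k, ‖D i k‖ ^ 2 ≤ t i * (R.card * ∑ j, ‖A i j‖ ^ 2) := by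
      have h8 : ∑ k, ‖D i k‖ ^ 2 = ∑ k ∈ univ.filter (fun k => H' i k ≠ H i k), ‖D i k‖ ^ 2 := by
        symm
        apply sum_subset (subset_univ _)
        intro k _ hk
        simp only [mem_filter, mem_univ, true_and, not_not] at hk
        rw [hD, Matrix.sub_apply, hk, sub_self, norm_zero]
        norm_num
      rw [h8]
      calc _ ≤ ∑ k ∈ univ.filter (fun k => H' i k ≠ H i k), (R.card * ∑ j, ‖A i j‖ ^ 2) :=
            sum_le_sum (fun k _ => hentry i k)
        _ = _ := by rw [sum_const, nsmul_eq_mul]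
    rw [hnorm i] at h7
    have h9 : (n : ℝ) * ∑ j, ‖A i j‖ ^ 2 ≤ (R.card * t i) * ∑ j, ‖A i j‖ ^ 2 := by
      calc _ ≤ _ := h7
        _ = _ := by ring
    have h10 : (n : ℝ) ≤ R.card * t i := le_of_mul_le_mul_right h9 hpos
    exact_mod_cast h10
  -- the total
  have hTc : ∑ i ∈ R, t i ≤ T.card := by
    have h1 : R.biUnion (fun i => (univ.filter (fun k => H' i k ≠ H i k)).image (fun k => (i, k)))
        ⊆ T := by
      intro p hp
      obtain ⟨i, hi, hp⟩ := mem_biUnion.1 hp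
      obtain ⟨k, hk, rfl⟩ := mem_image.1 hp
      exact (hTH i k).2 (mem_filter.1 hk).2
    have h2 := card_le_card h1
    rw [card_biUnion] at h2
    · refine le_trans (sum_le_sum fun i _ => ?_) h2
      rw [card_image_of_injective _ (fun a b h => (Prod.ext_iff.1 h).2)]
    · intro i _ j _ hij
      show Disjoint _ _
      rw [disjoint_left]
      intro p hp hp'
      obtain ⟨k, _, rfl⟩ := mem_image.1 hp
      obtain ⟨l, _, hl⟩ := mem_image.1 hp'
      exact hij (Prod.ext_iff.1 hl).1.symm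
  have hRne : 0 < R.card := by
    rw [card_pos]
    by_contra hcon
    rw [not_nonempty_iff_eq_empty] at hcon
    apply hne
    ext i j
    exact hR i (by rw [hcon]; simp) j
  have hfin : R.card * n ≤ R.card * T.card := by
    calc R.card * n = ∑ i ∈ R, n := by rw [sum_const, smul_eq_mul]
      _ ≤ ∑ i ∈ R, R.card * t i := sum_le_sum hrow
      _ = R.card * ∑ i ∈ R, t i := by rw [mul_sum]
      _ ≤ R.card * T.card := Nat.mul_le_mul_left _ hTc
  exact Nat.le_of_mul_le_mul_left hfin hRne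

end Pool.Agent.Results.MP_f34218_co.TradeSize
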